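import Pool.Agent.Q74.Crown.Main

/-!
# Log-concavity of the f-vectors of the order polytopes of crown posets

The face numbers are the ones given by the closed formula recorded in the problem file.
-/

namespace Pool.Agent.Results.MP_00f856_co.CrownLogConcave

open Finset

/-- `N_n(r, s) = (2n / r) * C(r, 2s) * C(n + s - 1, r - 1)`. -/
def bigN (n r s : ℕ) : ℚ := 2 * n / r * r.choose (2 * s) * (n + s - 1).choose (r - 1)

/-- The correction term: `δ_0 = 2`, `δ_1 = 1` and `δ_k = 0` for `k > 1`. -/
def delta (k : ℕ) : ℚ := if k = 0 then 2 else if k = 1 then 1 else 0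

/-- The number `f_k` of `k`-dimensional faces (`k ≥ 0`) of the order polytope of the crown poset
with `2n` elements, by the formula recorded in the problem file:
`δ_k + ∑_{s=1}^{n} ∑_{r=2s}^{2n} N_n(r,s) C(2s, r-k)`, where `C(2s, r-k) = 0` if `r < k`. -/
def faces (n k : ℕ) : ℚ :=
  delta k + ∑ s ∈ Icc 1 n, ∑ r ∈ Icc (2 * s) (2 * n), bigN n r s * (if k ≤ r then (2 * s).choose (r - k) else 0)

/-- The `f`-vector with the index shifted by one: entry `0` is `f_{-1} = 1` (the empty face) and
entry `k + 1` is `f_k`. The polytope has dimension `2n`, so the entries of the `f`-vector are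
those with index `0, …, 2n + 1`. -/
def fvec (n : ℕ) : ℕ → ℚ
  | 0 => 1
  | k + 1 => faces n k

/-- Sanity check with the example of the problem file: for `n = 2` the `f`-vector is
`(1, 7, 17, 18, 8, 1)`. -/
theorem example_two : (List.range 6).map (fvec 2) = [1, 7, 17, 18, 8, 1] := by
  decide +kernel

/-- For every `n ≥ 1` the entries `f_{-1}, …, f_{2n}` are positive and the `f`-vector is
log-concave. -/
theorem result (n : ℕ) (hn : 1 ≤ n) :
    (∀ j, j ≤ 2 * n + 1 → 0 < fvec n j) ∧
      ∀ j, 0 < j → j < 2 * n + 1 → fvec n (j - 1) * fvec n (j + 1) ≤ fvec n j ^ 2 := by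
  have key : ∀ j, fvec n j = ((Pool.Agent.Q74.Crown.fv n j : ℕ) : ℚ) := by
    intro j
    cases j with
    | zero => simp [fvec, Pool.Agent.Q74.Crown.fv]
    | succ k =>
      have h := Pool.Agent.Q74.Crown.faceNumber_eq n k
      exact h
  constructor
  · intro j hj
    rw [key]
    exact_mod_cast Pool.Agent.Q74.Crown.fv_pos hn hj
  · intro j hj _
    obtain ⟨i, rfl⟩ : ∃ i, j = i + 1 := ⟨j - 1, by omega⟩
    rw [Nat.add_sub_cancel, key, key, key]
    have h := Pool.Agent.Q74.Crown.fv_logconcave hn i
    exact_mod_cast h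

end Pool.Agent.Results.MP_00f856_co.CrownLogConcave
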